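import Pool.Agent.W747.MB.Defs

/-!
MB-PHS: the derivative bound passes to the next level.
-/

set_option autoImplicit false
open Metric Set

namespace Pool.Agent.W762.MB

open Pool.Agent.W747.MB

theorem f_diff (n : ℕ) (c : ℂ) : Differentiable ℂ (f n c) := by
  unfold f
  fun_prop

theorem iter_diff (n : ℕ) (c : ℂ) (j : ℕ) : Differentiable ℂ (f n c)^[j] :=
  (f_diff n c).iterate j

theorem X_succ (n : ℕ) (c : ℂ) (j : ℕ) : X n c (j + 1) = n * c ^ (n - 1) * A n c j ^ n := rfl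

theorem iter_c {n : ℕ} (hn : 2 ≤ n) (c : ℂ) (j : ℕ) : (f n c)^[j] c = c * A n c j := by
  have hn0 : (n : ℂ) ≠ 0 := by
    have : n ≠ 0 := by omega
    exact_mod_cast this
  induction j with
  | zero =>
    unfold A X
    simp
  | succ j ih =>
    rw [Function.iterate_succ', Function.comp_apply, ih]
    have h1 : A n c (j + 1) = 1 + c ^ (n - 1) * A n c j ^ n := by
      unfold A
      rw [X_succ]
      unfold A
      field_simp
    rw [h1]
    unfold f
    have h2 : c ^ n = c * c ^ (n - 1) := by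
      rw [← pow_succ', Nat.sub_add_cancel (by omega)]
    rw [mul_pow, h2]
    ring

theorem main : P_PHS := by
  intro n hn c j D D' hc hD hDD hph hA hX z hz
  have hn2 : (2 : ℝ) ≤ n := by exact_mod_cast hn
  have hn0 : (0 : ℝ) < n := by linarith
  have hc0 : 0 < ‖c‖ := norm_pos_iff.2 hc
  have hD0 : 0 < D := by linarith
  have hD'0 : 0 < D' := by linarith
  have hzD : ‖z - c‖ ≤ ‖c‖ / (10 * n * D) := by
    refine hz.trans ?_
    apply div_le_div_of_nonneg_left hc0.le (by positivity)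
    exact mul_le_mul_of_nonneg_left hDD (by positivity)
  set s : Set ℂ := closedBall c (‖c‖ / (10 * n * D)) with hs
  have hcs : c ∈ s := mem_closedBall_self (by positivity)
  have hzs : z ∈ s := by rw [hs, mem_closedBall_iff_norm]; exact hzD
  have h1 : ‖(f n c)^[j] z - (f n c)^[j] c‖ ≤ D * ‖z - c‖ :=
    (convex_closedBall c _).norm_image_sub_le_of_norm_deriv_le
      (fun x _ => (iter_diff n c j) x)
      (fun x hx => hph x (by rwa [mem_closedBall_iff_norm] at hx)) hcs hzs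
  set w := (f n c)^[j] z with hw
  rw [iter_c hn] at h1
  have h2 : D * ‖z - c‖ ≤ ‖c‖ / (10 * n) := by
    calc D * ‖z - c‖ ≤ D * (‖c‖ / (10 * n * D)) := mul_le_mul_of_nonneg_left hzD hD0.le
      _ = ‖c‖ / (10 * n) := by field_simp
  have hAp : 0 < ‖A n c j‖ := by linarith
  have h3 : ‖w‖ ≤ ‖c‖ * ‖A n c j‖ * (1 + 1 / (8 * n)) := by
    have h4 : ‖w‖ ≤ ‖c * A n c j‖ + ‖w - c * A n c j‖ := by
      calc ‖w‖ = ‖c * A n c j + (w - c * A n c j)‖ := by ring_nf
        _ ≤ _ := norm_add_le _ _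
    rw [norm_mul] at h4
    have h5 : ‖c‖ / (10 * n) ≤ ‖c‖ * ‖A n c j‖ * (1 / (8 * n)) := by
      have h6 : ‖c‖ / (10 * n) = ‖c‖ * (4 / 5) * (1 / (8 * n)) := by field_simp; ring
      rw [h6]
      apply mul_le_mul_of_nonneg_right _ (by positivity)
      exact mul_le_mul_of_nonneg_left hA hc0.le
    calc ‖w‖ ≤ ‖c‖ * ‖A n c j‖ + ‖c‖ * ‖A n c j‖ * (1 / (8 * n)) := by linarith
      _ = _ := by ring
  have hder : deriv (f n c)^[j + 1] z = (n * w ^ (n - 1)) * deriv (f n c)^[j] z := by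
    have h4 : HasDerivAt (f n c) (n * w ^ (n - 1)) w := by
      have := (hasDerivAt_pow n w).add_const c
      exact this
    have h5 : HasDerivAt (f n c)^[j] (deriv (f n c)^[j] z) z :=
      ((iter_diff n c j) z).hasDerivAt
    have h6 := h4.comp z h5
    rw [Function.iterate_succ']
    exact h6.deriv
  have hexp : Real.exp (1 / 8) ≤ 6 / 5 := by
    have h4 : Real.exp (1 / 8) ^ 8 ≤ (6 / 5 : ℝ) ^ 8 := by
      rw [← Real.exp_nat_mul]
      have h5 : ((8 : ℕ) : ℝ) * (1 / 8) = 1 := by norm_num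
      rw [h5]
      have := Real.exp_one_lt_d9
      norm_num
      linarith
    exact (pow_le_pow_iff_left₀ (Real.exp_pos _).le (by norm_num) (by norm_num)).1 h4
  have hpow : (1 + 1 / (8 * (n : ℝ))) ^ (n - 1) ≤ 6 / 5 := by
    refine le_trans ?_ hexp
    calc (1 + 1 / (8 * (n : ℝ))) ^ (n - 1) ≤ Real.exp (1 / (8 * (n : ℝ))) ^ (n - 1) := by
          apply pow_le_pow_left₀ (by positivity)
          have := Real.add_one_le_exp (1 / (8 * (n : ℝ)))
          linarith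
      _ = Real.exp (((n - 1 : ℕ) : ℝ) * (1 / (8 * (n : ℝ)))) := by rw [← Real.exp_nat_mul]
      _ ≤ Real.exp (1 / 8) := by
          apply Real.exp_le_exp.2
          have h4 : ((n - 1 : ℕ) : ℝ) ≤ n := by exact_mod_cast Nat.sub_le n 1
          calc ((n - 1 : ℕ) : ℝ) * (1 / (8 * (n : ℝ))) ≤ n * (1 / (8 * (n : ℝ))) :=
                mul_le_mul_of_nonneg_right h4 (by positivity)
            _ = 1 / 8 := by field_simp
  have hXn : ‖X n c (j + 1)‖ = n * ‖c‖ ^ (n - 1) * ‖A n c j‖ ^ (n - 1) * ‖A n c j‖ := by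
    rw [X_succ, norm_mul, norm_mul, norm_pow, norm_pow, Complex.norm_natCast, mul_assoc _ _ ‖A n c j‖,
      ← pow_succ, Nat.sub_add_cancel (by omega)]
  have hf' : ‖(n : ℂ) * w ^ (n - 1)‖ ≤ 3 / 2 * ‖X n c (j + 1)‖ := by
    rw [norm_mul, norm_pow, Complex.norm_natCast, hXn]
    have h4 : ‖w‖ ^ (n - 1) ≤ ‖c‖ ^ (n - 1) * ‖A n c j‖ ^ (n - 1) * (6 / 5) := by
      calc ‖w‖ ^ (n - 1) ≤ (‖c‖ * ‖A n c j‖ * (1 + 1 / (8 * n))) ^ (n - 1) :=
            pow_le_pow_left₀ (norm_nonneg _) h3 _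
        _ = ‖c‖ ^ (n - 1) * ‖A n c j‖ ^ (n - 1) * (1 + 1 / (8 * (n : ℝ))) ^ (n - 1) := by
            rw [mul_pow, mul_pow]
        _ ≤ _ := mul_le_mul_of_nonneg_left hpow (by positivity)
    set q := ‖c‖ ^ (n - 1) * ‖A n c j‖ ^ (n - 1) with hq
    have hq0 : 0 ≤ q := by positivity
    calc (n : ℝ) * ‖w‖ ^ (n - 1) ≤ n * (q * (6 / 5)) := mul_le_mul_of_nonneg_left h4 hn0.le
      _ = 3 / 2 * (n * q * (4 / 5)) := by ring
      _ ≤ 3 / 2 * (n * q * ‖A n c j‖) := by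
          apply mul_le_mul_of_nonneg_left _ (by norm_num)
          exact mul_le_mul_of_nonneg_left hA (by positivity)
      _ = 3 / 2 * (n * ‖c‖ ^ (n - 1) * ‖A n c j‖ ^ (n - 1) * ‖A n c j‖) := by rw [hq]; ring
  rw [hder, norm_mul]
  calc ‖(n : ℂ) * w ^ (n - 1)‖ * ‖deriv (f n c)^[j] z‖ ≤ (3 / 2 * ‖X n c (j + 1)‖) * D :=
        mul_le_mul hf' (hph z hzD) (norm_nonneg _) (by positivity)
    _ ≤ D' := hX

end Pool.Agent.W762.MB
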